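import Mathlib
import Pool.Agent.H29.Her

namespace Pool.Agent.Results.MP_6df474_gt.Counter
open Set MeasureTheory

/-- half the surface area (area-normalised two-dimensional Hausdorff measure of the boundary) -/
noncomputable def V2 (K : Set (EuclideanSpace ℝ (Fin 3))) : ℝ :=
  (Measure.euclideanHausdorffMeasure 2 (frontier K)).toReal / 2

/-- the section of `K` by the plane `x i = 0`, read in the two remaining coordinates -/
def sec (K : Set (EuclideanSpace ℝ (Fin 3))) (i : Fin 3) : Set (EuclideanSpace ℝ (Fin 2)) :=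
  {y | WithLp.toLp 2 (Fin.insertNth (α := fun _ => ℝ) i 0 (WithLp.ofLp y)) ∈ K}

/-- half the perimeter of that section -/
noncomputable def ell (K : Set (EuclideanSpace ℝ (Fin 3))) (i : Fin 3) : ℝ :=
  (Measure.hausdorffMeasure 1 (frontier (sec K i))).toReal / 2

theorem result : ∃ K : Set (EuclideanSpace ℝ (Fin 3)),
    IsCompact K ∧ Convex ℝ K ∧ (interior K).Nonempty ∧ (∀ i, (interior (sec K i)).Nonempty) ∧
      Measure.euclideanHausdorffMeasure 2 (frontier K) ≠ ⊤ ∧
      V2 K ^ 2 < 1 / 16 * (∑ i, ell K i ^ 2) ^ 2 - 1 / 8 * ∑ i, ell K i ^ 4 := by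
  have hs : ∀ i, sec H29.Her.K i = H29.Her.T := by
    intro i
    ext y
    fin_cases i <;> simp [sec, H29.Her.K, H29.Her.T, Fin.insertNth, Fin.succAboveCases]
    exact fun _ => Iff.rfl
  have he : ∀ i, ell H29.Her.K i = (2 + Real.sqrt 2) / 2 := fun i => by
    rw [ell, hs, H29.Her.perT]
  refine ⟨H29.Her.K, H29.Her.K_compact, H29.Her.K_convex,
    ⟨!₂[1 / 4, 1 / 4, 1 / 4], H29.Her.K_int (by simp) (by simp) (by simp) (by simp; norm_num)⟩,
    fun i => ⟨!₂[1 / 4, 1 / 4], by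
      rw [hs]; exact H29.Her.T_int (by simp) (by simp) (by simp; norm_num)⟩,
    ne_top_of_le_ne_top ENNReal.ofReal_ne_top H29.Her.surfK', ?_⟩
  have h1 : V2 H29.Her.K ≤ 243 / 200 := by have := H29.Her.surfK; rw [V2]; linarith
  have h0 : 0 ≤ V2 H29.Her.K := by rw [V2]; positivity
  have h2 : (7 / 5 : ℝ) ≤ Real.sqrt 2 := Real.le_sqrt_of_sq_le (by norm_num)
  have h3 : (17 / 10 : ℝ) ^ 4 ≤ ((2 + Real.sqrt 2) / 2) ^ 4 :=
    pow_le_pow_left₀ (by norm_num) (by linarith) 4
  have h4 := pow_le_pow_left₀ h0 h1 2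
  simp only [he, Fin.sum_univ_three]
  nlinarith

end Pool.Agent.Results.MP_6df474_gt.Counter
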